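import Pool.Agent.N683.AV.Main

/-!
# The parity conjecture for semistable abelian varieties with an elliptic factor: reduction to large rank

`K` is a number field, `E` an elliptic curve over `K` with `j(E) ≠ 0, 1728`, `L` a finite Galois extension of
`K`, for example `L = K(A[N])`, `S` a finite set of primes of `K`, `n` an odd number and `R` a natural
number.

The definitions are in `Pool.Agent.N683.AV.Defs` (semistable abelian varieties), `Pool.Agent.N19.BR.PDefs`
and `Pool.Agent.N19.BR.Defs` (`TwoClass`).

The proof.  Let `U` be a group of automorphisms of the algebraic closure over `K` such that all finite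
images of `U` are `2`-hyperelementary.  Then `E` has infinite rank over the fixed field of `U`
(`Pool.Agent.N683.H2`: one of two explicit families of lines contains points of the fixed field, since
the field of the square root of the discriminant of three conjugate points on a line is unique).  By
compactness the rank of `E`, and of every abelian variety with the factor `E`, is at least `R` over the fixed
fields of all `2`-hyperelementary subgroups of the Galois group of a suitable finite extension, and Brauer
induction with denominators prime to `2` gives a relation `∑ e_j [F_j] = m [K]` with an odd integer `m`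
between the permutation characters of such fields; it is combined with the relations with local conditions
of `Pool.Agent.N19.BR`.  It gives the relations `∑ e_j rk A(F_j) = m rk A(K)`, `∑ e_j r_∞(F_j) = m r_∞(K)` for
the numbers of archimedean places, and `∑_j e_j ∑_{w | v} φ(f(w)) = m φ(1)` for every prime `v` and every
function `φ` of the residue degrees of the places `w` of `F_j` above `v`, which is applied to the rank of the
group of the elements of the character group of the torus at `v` fixed by the `f`-th power of the Frobenius.
-/

set_option autoImplicit false

namespace Pool.Agent.Results.MP_ac3185_nt.LargeRankEllipticFactor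

open NumberField IsDedekindDomain
open Pool.Agent.R433.MD (Ext)
open Pool.Agent.N19.BR.FDef (TwoClass)
open Pool.Agent.N683.AV
open scoped Classical

/-- The parity conjecture holds for the semistable abelian variety `A` over all number fields `F` between
`K` and its algebraic closure for which the Galois group of `L F / F` is `2`-hyperelementary, `n` divides the
local degrees of `F / K` at the primes above `S`, and the rank of `A(F)` is at least `R`. -/
def ParityInLargeRank {K : Type} [Field K] [NumberField K] {A : Type} [AddCommGroup A]
    (α : Representation ℤ Gal(AlgebraicClosure K/K) A) (D : ToricData K) (g : ℕ)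
    (L : Type) [Field L] [Algebra K L] (S : Set (HeightOneSpectrum (𝓞 K))) (n R : ℕ) : Prop :=
  ∀ (F : IntermediateField K (AlgebraicClosure K)) (_ : NumberField F),
    TwoClass L S n (⟨F⟩ : Ext K) → (R : Cardinal) ≤ Module.rank ℤ (points α F) →
      ParityOver α D g F

/-- **Parity and semistable abelian varieties of large rank.**

Let `K` be a number field, `L/K` a finite Galois extension, `S` a finite set of primes of `K`, `n` an odd
positive integer, `R` a natural number and `E` an elliptic curve over `K` with `j(E) ≠ 0, 1728`.

(1) There are finitely many number fields `F_j` between `K` and its algebraic closure and a set `J` of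
indices such that the Galois groups of `L F_j / F_j` are `2`-hyperelementary, `n` divides the local degrees
of all `F_j / K` at the primes above `S`,

`(-1)^{rk A(K)} w(A / K) = ∏_{j ∈ J} (-1)^{rk A(F_j)} w(A / F_j)`

for ALL semistable abelian varieties `A` over `K`, and `rk A(F_j) ≥ R` for all `j` and ALL abelian varieties
`A` over `K` which have `E` as a factor up to isogeny.

(2) Let `A` be a semistable abelian variety over `K` with the factor `E`.  If the parity conjecture holds for
`A` over all finite extensions `F` of `K` such that `rk A(F) ≥ R`, the Galois group of `L F / F` is
`2`-hyperelementary and `n` divides the local degrees of `F / K` at the primes above `S`, then it holds for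
`A` over `K`. -/
theorem result (K : Type) [Field K] [NumberField K] (L : Type) [Field L] [NumberField L]
    [Algebra K L] [IsGalois K L] (S : Set (HeightOneSpectrum (𝓞 K))) (hS : S.Finite) (n : ℕ)
    (hn : Odd n) (R : ℕ) (E : WeierstrassCurve K) [E.IsElliptic] (h0 : E.j ≠ 0)
    (h1728 : E.j ≠ 1728) :
    (∃ X : FieldList K, X.InClass L S n ∧ X.HoldsForAll ∧
      ∀ (A : Type) [AddCommGroup A] (α : Representation ℤ Gal(AlgebraicClosure K/K) A),
        IsFactor α E → X.RankAtLeast R α) ∧
    ∀ (A : Type) [AddCommGroup A] (α : Representation ℤ Gal(AlgebraicClosure K/K) A)
      (D : ToricData K) (g : ℕ), IsFactor α E → ParityInLargeRank α D g L S n R →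
        Parity α D g := by
  have hE : E.IsElliptic := inferInstance
  obtain ⟨X, h1, h2, h3⟩ := list_rank E hE h0 h1728 L S hS n hn R
  refine ⟨⟨X, h1, h2, h3⟩, fun A _ α D g hα hp => ?_⟩
  exact (h2 A α D g).2 fun j => hp (X.F j) (X.nf j) (h1 j) (h3 A α hα j)

end Pool.Agent.Results.MP_ac3185_nt.LargeRankEllipticFactor
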