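import Pool.Agent.N970.AVP.Pq

/-!
# The parity conjecture for products of quadratic twists of three modular curves over multiquadratic fields

The curves `C_0 = X_0(15) : y² = x (x + 9) (x - 16)`, `C_1 : y² = x (x + 1) (x - 16)` of conductor `17` and
`C_2 = X_0(21) : y² = x (x - 9) (x + 7)` are semistable and have no complex multiplication; `C_{j, m}` is the
twist of `C_j` by `m`. We consider the abelian varieties `A = ∏_i C_{j_i, e_i}` of any dimension, for any
`j_i` and any nonzero integers `e_i`, over the multiquadratic fields `K = ℚ(√d_1, …, √d_r)`, real or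
imaginary, of any degree `2 ^ r`. There is no condition on the `e_i`, on the `d_t`, or on coprimality.

Call `A` good over `K` if the curves `C_{j_i, e_i d_T}` over `ℚ`, `d_T = ∏_{t ∈ T} d_t`, which are the
factors of the Weil restriction `R` of `A` from `K` to `ℚ`, have finitely many rational points and no
element of order two in the Tate-Shafarevich group.

The root number `w(A/K) = ∏_v w(A/K_v)` is `w(R/ℚ)` (root numbers are inductive in degree zero), that is the
product of the `w(C_{j_i, e_i d_T}/ℚ)`; for the twists `C_{j, d}`, `d` squarefree, the product of the local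
root numbers is known: the curve `C_j` is semistable with the conductor `N_j`, the local root number at the
infinite place is `- 1`, at the primes `p ∤ N_j` it is `χ_p(-1)`, `χ_p` the local character of `ℚ(√d)`, at `p | N_j` it
is `χ_p(-1)` if `p | d` and otherwise `- 1` for split and `+ 1` for nonsplit multiplicative reduction of
`C_{j, d}`; the product is the definition `rootNumber`.

(1) If `A` is good over `K`, then the parity conjecture holds for `A` over `K`: `A(K)` is finite, so that
`(-1)^{rk A(K)} = 1`; the root number `w(A/K)` is `1`; and `w = 1` for every sign `w` in a functional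
equation of `L(A/K, s)` (with all Euler factors). Moreover `Ш(A/K)[2^∞]` is finite and killed by `2 ^ r`.
(2) *Random abelian varieties over `ℚ`.* The proportion of the good `A` among all the products with
squarefree `e_i`, `|e_i| ≤ X`, tends to `∏_i δ_{j_i}`, `δ_0 = η / 2 = 0.1444…`, `δ_1 = c / 2 = 0.2097…`,
`δ_2 = 137 η / 256 = 0.1545…`, where `η = ∏ (1 - 2^{-i})` and `c = ∏ (1 - 2^{-(2 i - 1)})`.
(3) *Random quadratic fields.* The proportion of the quadratic fields `K`, real or imaginary, ordered by
the discriminant, over which a product `A` of the curves `C_0`, `C_1`, `C_2` is good, is for every `A` exactly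
`δ_S`, `S` the set of the `j` such that `C_j` occurs in `A`: `δ_j` if `S = {j}`, `433 η c / 1728 = 0.0303…` if
`S = {0, 1}`, `443 η / 3072 = 0.0416…` if `S = {0, 2}`, `2461 η c / 9216 = 0.0323…` if `S = {1, 2}`, and
`8065 η c / 110592 = 0.0088…` if all the three curves occur.
(4) *Ideal classes.* For the imaginary quadratic fields `K` in which `3` is not inert and `5` is not
split (for `X_0(15)`), `3` is not split and `7` is not inert (for `X_0(21)`), the product
`X_0(15)^a × X_0(21)^b` is good over `K` if and only if `K` has no ideal class of order four. These are a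
proportion of exactly `η` of the fields of the family.

(1) rests on the theorems for one curve over `ℚ` (problem `MP_696deb_nt`, files `Conductor15`,
`Conductor17`, `Conductor21`, joint work of helpers 969, 877, 809, 970, 971, 972, 973, 974, 975, 99, 218,
402, 575, 637, 816, 844, 855, 871, 875, 878, 886, 890, 916, 919, 958 and others), on the factorization
of the `L`-function and the 2-primary part of `Ш` over multiquadratic fields (helpers 687, 723, 494, 413,
841 and others) and on the library of helpers 433, 333 and 341 for minimal models over number fields; the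
densities for one curve are due to helpers 916 and 919, the joint law of the three curves to helpers 809,
877, 963, 972, 975.
-/

set_option autoImplicit false

open NumberField IsDedekindDomain Filter Topology

namespace Pool.Agent.Results.MP_ac3185_nt.ProductsThreeCurves

/-- the coefficient `a` of the equation `y² = x³ + a x + b` of the twist by `m` of the curve `C_j` -/
def A (j : Fin 3) (m : ℤ) : ℤ := (![-12987, -91, -5211] : Fin 3 → ℤ) j * m ^ 2

/-- the coefficient `b` of the equation `y² = x³ + a x + b` of the twist by `m` of the curve `C_j` -/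
def B (j : Fin 3) (m : ℤ) : ℤ := (![-263466, -330, -31050] : Fin 3 → ℤ) j * m ^ 3

/-- the twist `C_{j, m}` by `m` of the curve `C_j`, over the field `K` -/
def E (K : Type) [Field K] (j : Fin 3) (m : ℤ) : WeierstrassCurve K :=
  { a₁ := 0, a₂ := 0, a₃ := 0, a₄ := (A j m : K), a₆ := (B j m : K) }

/-- `C_{j, m}(ℚ)` is finite and `Ш(C_{j, m}/ℚ)` has no element of order two -/
def RankZeroShaTwo (j : Fin 3) (m : ℤ) : Prop :=
  Finite (E ℚ j m).toAffine.Point ∧ ∀ x : Pool.Agent.TH841.NF.D.Sha (E ℚ j m), 2 • x = 0 → x = 0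

/-- `ℚ(√d_1, …, √d_r)` has degree `2 ^ r` -/
def Independent {r : ℕ} (d : Fin r → ℤ) : Prop :=
  ∀ T : Finset (Fin r), T.Nonempty → ¬ IsSquare (∏ t ∈ T, d t)

/-- `K = ℚ(√d_1, …, √d_r)` -/
def IsMultiquadratic {r : ℕ} (d : Fin r → ℤ) (K : Type) [Field K] [NumberField K] : Prop :=
  ∃ x : Fin r → K, (∀ t, x t ^ 2 = (d t : K)) ∧ IntermediateField.adjoin ℚ (Set.range x) = ⊤

/-- the group `A(K)` for the product `A` of the curves `C_{j i, e i}` -/
abbrev AK {ι : Type} (K : Type) [Field K] (j : ι → Fin 3) (e : ι → ℤ) : Type :=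
  ∀ i, (E K (j i) (e i)).toAffine.Point

/-- the nonzero primes of `K` -/
abbrev Pr (K : Type) [Field K] [NumberField K] : Type := {P : Ideal (𝓞 K) // P.IsPrime ∧ P ≠ ⊥}

/-- for every prime `P` the equation `M P` of `E` with coefficients in `𝓞 K` is minimal at `P` -/
def Minimal {K : Type} [Field K] [NumberField K] (E : WeierstrassCurve K)
    (M : Pr K → WeierstrassCurve (𝓞 K)) : Prop :=
  ∀ P, (∃ C : WeierstrassCurve.VariableChange K, C • E = (M P).map (algebraMap (𝓞 K) K)) ∧
    ∀ W : WeierstrassCurve (𝓞 K),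
      (∃ C : WeierstrassCurve.VariableChange K, C • E = W.map (algebraMap (𝓞 K) K)) →
        ∀ n : ℕ, (M P).Δ ∈ P.1 ^ n → W.Δ ∈ P.1 ^ n

open Classical in
/-- the Euler product with all Euler factors -/
noncomputable def euler {K : Type} [Field K] [NumberField K] (M : Pr K → WeierstrassCurve (𝓞 K))
    (s : ℂ) : ℂ :=
  ∏' P : Pr K, (1 - ((Nat.card (𝓞 K ⧸ P.1) : ℂ) -
      (Nat.card {xy : (𝓞 K ⧸ P.1) × (𝓞 K ⧸ P.1) //
        ((M P).map (Ideal.Quotient.mk P.1)).toAffine.Equation xy.1 xy.2} : ℂ)) *
        (Nat.card (𝓞 K ⧸ P.1) : ℂ) ^ (-s) +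
      (if (M P).Δ ∈ P.1 then 0 else (Nat.card (𝓞 K ⧸ P.1) : ℂ) ^ (1 - 2 * s)))⁻¹

/-- the conductor of the curve `C_j` -/
def cond : Fin 3 → ℕ := ![15, 17, 21]

/-- `1` if the curve `C_j` has split, `- 1` if it has nonsplit multiplicative reduction at the prime `p` of its
conductor: nonsplit at `3` for `X_0(15)` and at `7` for `X_0(21)`, split in the other cases -/
def splitSign : Fin 3 → ℕ → ℤ := ![fun p => if p = 3 then -1 else 1, fun _ => 1,
  fun p => if p = 7 then -1 else 1]

/-- the odd part of the squarefree integer `d` -/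
def oddPart (d : ℤ) : ℤ := if d % 2 = 0 then d / 2 else d

/-- the local root number at the prime `p` of the twist `C_{j, d}`, `d` squarefree: `χ(-1)` for the local
character `χ` of `ℚ(√d)` at `p` if `p` divides `2 d` (`χ(-1) = 1` at `2` if and only if the odd part of `d` is
`1 mod 4`, and `χ(-1)` is the Legendre symbol of `-1` for odd `p`), `- 1` or `+ 1` if the multiplicative
reduction at `p` is split or nonsplit, `+ 1` if the reduction is good -/
def localRoot (j : Fin 3) (d : ℤ) (p : ℕ) : ℤ :=
  if p = 2 then (if oddPart d % 4 = 1 then 1 else -1)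
  else if (p : ℤ) ∣ d then jacobiSym (-1) p
  else if p ∣ cond j then -(splitSign j p * jacobiSym d p)
  else 1

/-- the root number of the twist `C_{j, d}`, `d` squarefree: the product of the local root numbers, the one
at the infinite place being `- 1` -/
def rootNumber (j : Fin 3) (d : ℤ) : ℤ :=
  -∏ p ∈ (2 * cond j * d.natAbs).primeFactors, localRoot j d p

/-- the completed `L`-function for the number `n` of the Gamma factors `(2 π)^{-s} Γ(s)` and the conductor
`N` -/
noncomputable def LamA (N n : ℕ) (F : ℂ → ℂ) (s : ℂ) : ℂ :=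
  (N : ℂ) ^ (s / 2) * ((2 * (Real.pi : ℂ)) ^ (-s) * Complex.Gamma s) ^ n * F s

/-- `w` is the sign in the functional equation of `L(A/K, s)`, the product of the complete `L`-functions
of the factors `C_{j i, e i}`, for `s ↦ 2 - s` and `dim A · [K : ℚ]` Gamma factors -/
def IsSign {ι : Type} [Fintype ι] (K : Type) [Field K] [NumberField K] (j : ι → Fin 3)
    (e : ι → ℤ) (w : ℤ) : Prop :=
  ∃ (N : ℕ) (f : ι → ℂ → ℂ) (M : ι → Pr K → WeierstrassCurve (𝓞 K)), 0 < N ∧
    (∀ i, Differentiable ℂ (f i) ∧ Minimal (E K (j i) (e i)) (M i) ∧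
      ∀ s : ℂ, 3 / 2 < s.re → f i s = euler (M i) s) ∧
    ∀ s : ℂ, 0 < s.re → s.re < 2 →
      LamA N (Fintype.card ι * Module.finrank ℚ K) (fun z => ∏ i, f i z) s =
        w * LamA N (Fintype.card ι * Module.finrank ℚ K) (fun z => ∏ i, f i z) (2 - s)

open Classical in
/-- the root number of the twist `C_{j, m}` by any integer `m ≠ 0`: that of `C_{j, d}`, where `d` is the
squarefree integer with `m = d k²` -/
noncomputable def rootNumberZ (j : Fin 3) (m : ℤ) : ℤ :=
  if h : ∃ d k : ℤ, Squarefree d ∧ k ≠ 0 ∧ m = d * k ^ 2 then rootNumber j h.choose else 1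

/-- the root number of `A` over `K`: the product of the root numbers of the curves
`C_{j_i, e_i ∏_{t ∈ T} d_t}` over `ℚ`, the factors of the Weil restriction of `A` from `K` to `ℚ` -/
noncomputable def rootNumberA {ι : Type} [Fintype ι] {r : ℕ} (d : Fin r → ℤ) (j : ι → Fin 3)
    (e : ι → ℤ) : ℤ :=
  ∏ i, ∏ T : Finset (Fin r), rootNumberZ (j i) (e i * ∏ t ∈ T, d t)

open Classical in
/-- the parity conjecture for `A` over `K` with the rank zero, for the root number and for the sign in the
functional equation, and the finiteness of `Ш(A/K)[2^∞]`, the sum of the groups of the factors, which is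
killed by `2 ^ r` -/
def ParityZero {ι : Type} [Fintype ι] (K : Type) [Field K] [NumberField K] {r : ℕ}
    (d : Fin r → ℤ) (j : ι → Fin 3) (e : ι → ℤ) : Prop :=
  Finite (AK K j e) ∧ Module.finrank ℤ (AK K j e) = 0 ∧
    (-1) ^ Module.finrank ℤ (AK K j e) = rootNumberA d j e ∧
    (∀ w : ℤ, IsSign K j e w → (-1) ^ Module.finrank ℤ (AK K j e) = w) ∧
    ∀ i, {y : Pool.Agent.TH841.NF.D.Sha (E K (j i) (e i)) | ∃ k : ℕ, (2 ^ k : ℕ) • y = 0}.Finite ∧
      ∀ (k : ℕ) (y : Pool.Agent.TH841.NF.D.Sha (E K (j i) (e i))), (2 ^ k : ℕ) • y = 0 →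
        (2 ^ r : ℕ) • y = 0

/-- `A` is good over `K = ℚ(√d_1, …, √d_r)`: the curves `C_{j_i, e_i ∏_{t ∈ T} d_t}` over `ℚ`, which are the
factors of the Weil restriction of `A` from `K` to `ℚ`, have finitely many rational points and no
element of order two in the Tate-Shafarevich group -/
def Good {ι : Type} {r : ℕ} (d : Fin r → ℤ) (j : ι → Fin 3) (e : ι → ℤ) : Prop :=
  ∀ i, ∀ T : Finset (Fin r), RankZeroShaTwo (j i) (e i * ∏ t ∈ T, d t)

/-- the proportions `η / 2`, `c / 2`, `137 η / 256` -/
noncomputable def delta : Fin 3 → ℝ :=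
  ![(∏' i : ℕ, (1 - (1 / 2 : ℝ) ^ (i + 1))) / 2, (∏' i : ℕ, (1 - (1 / 2 : ℝ) ^ (2 * i + 1))) / 2,
    137 / 256 * ∏' i : ℕ, (1 - (1 / 2 : ℝ) ^ (i + 1))]

/-- the proportions `δ_S`, `S` the (nonempty) set of the `j` such that `C_j` occurs: `η / 2`, `c / 2`,
`137 η / 256` for one curve, `433 η c / 1728` for `S = {0, 1}`, `443 η / 3072` for `S = {0, 2}`,
`2461 η c / 9216` for `S = {1, 2}`, `8065 η c / 110592` for all three -/
noncomputable def deltaS (S : Finset (Fin 3)) : ℝ :=
  if 1 ∈ S then
    if 0 ∈ S then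
      (if 2 ∈ S then 8065 / 110592 else 433 / 1728) *
        ((∏' i : ℕ, (1 - (1 / 2 : ℝ) ^ (i + 1))) * ∏' i : ℕ, (1 - (1 / 2 : ℝ) ^ (2 * i + 1)))
    else if 2 ∈ S then
      2461 / 9216 *
        ((∏' i : ℕ, (1 - (1 / 2 : ℝ) ^ (i + 1))) * ∏' i : ℕ, (1 - (1 / 2 : ℝ) ^ (2 * i + 1)))
    else (∏' i : ℕ, (1 - (1 / 2 : ℝ) ^ (2 * i + 1))) / 2
  else
    (if 0 ∈ S then (if 2 ∈ S then 443 / 3072 else 1 / 2) else 137 / 256) *
      ∏' i : ℕ, (1 - (1 / 2 : ℝ) ^ (i + 1))

open Classical in
/-- the number of the families `(e i)` of squarefree integers, `|e i| ≤ X`, with the property `P` -/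
noncomputable def countFam {ι : Type} [Fintype ι] (P : (ι → ℤ) → Prop) (X : ℕ) : ℕ :=
  ((Fintype.piFinset fun _ : ι => Finset.Icc (-(X : ℤ)) X).filter fun e =>
    (∀ i, Squarefree (e i)) ∧ P e).card

/-- `D` is a fundamental discriminant (`1` included) -/
def Fund (D : ℤ) : Prop := (Squarefree D ∧ D % 4 = 1) ∨
  ∃ m : ℤ, D = 4 * m ∧ Squarefree m ∧ (m % 4 = 2 ∨ m % 4 = 3)

open Classical in
/-- the number of the quadratic fields with a discriminant `D`, `|D| ≤ X`, which has the property `P` -/
noncomputable def countQuad (P : ℤ → Prop) (X : ℕ) : ℕ :=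
  ((Finset.Icc (-(X : ℤ)) X).filter fun D => Fund D ∧ D ≠ 1 ∧ P D).card

/-- the local conditions on the quadratic field of discriminant `D` for the curve `C_j`: `3` is not
inert and `5` is not split for `X_0(15)`, `3` is not split and `7` is not inert for `X_0(21)`; the curve
of conductor `17` is not allowed -/
def Allowed : Fin 3 → ℤ → Prop :=
  ![fun D => D % 3 ≠ 2 ∧ ¬ (D % 5 = 1 ∨ D % 5 = 4), fun _ => False,
    fun D => D % 3 ≠ 1 ∧ ¬ (D % 7 = 3 ∨ D % 7 = 5 ∨ D % 7 = 6)]

/-- the ideal class group of `ℚ(√D)` has no element of order four -/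
def NoOrderFour (D : ℤ) : Prop :=
  ∀ (K : Type) [Field K] [NumberField K], Module.finrank ℚ K = 2 →
    (∃ s : K, s ^ 2 = (D : K)) →
    ∀ c : ClassGroup (NumberField.RingOfIntegers K), c ^ 4 = 1 → c ^ 2 = 1

/-- **The parity conjecture for products of quadratic twists of three modular curves over multiquadratic
fields.** -/
theorem result {ι : Type} [Fintype ι] [Nonempty ι] :
    -- the parity conjecture for good products over all multiquadratic fields
    (∀ (r : ℕ) (d : Fin r → ℤ), Independent d → ∀ (j : ι → Fin 3) (e : ι → ℤ), (∀ i, e i ≠ 0) →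
      Good d j e → ∀ (K : Type) [Field K] [NumberField K], IsMultiquadratic d K →
        Module.finrank ℚ K = 2 ^ r ∧ ParityZero K d j e) ∧
    -- the proportion of the good products over `ℚ` among all products
    (∀ j : ι → Fin 3, Tendsto (fun X : ℕ =>
      (countFam (fun e : ι → ℤ => Good (Fin.elim0 : Fin 0 → ℤ) j e) X : ℝ) /
        (countFam (fun _ : ι → ℤ => True) X : ℝ)) atTop (nhds (∏ i, delta (j i)))) ∧
    -- the proportion of the quadratic fields over which the product of the `C_{j_i}` is good
    (∀ j : ι → Fin 3, Tendsto (fun X : ℕ =>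
      (countQuad (fun D => Good (fun _ : Fin 1 => D) j (fun _ => 1)) X : ℝ) /
        (countQuad (fun _ => True) X : ℝ)) atTop (nhds (deltaS (Finset.univ.image j)))) ∧
    -- products of `X_0(15)` and `X_0(21)` over imaginary quadratic fields: ideal classes of order four
    (∀ (j : ι → Fin 3) (D : ℤ), Fund D → D < 0 → (∀ i, Allowed (j i) D) →
      (Good (fun _ : Fin 1 => D) j (fun _ => 1) ↔ NoOrderFour D)) ∧
    (∀ j : ι → Fin 3, (∀ i, j i ≠ 1) → Tendsto (fun X : ℕ =>
      (countQuad (fun D => (D < 0 ∧ ∀ i, Allowed (j i) D) ∧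
        Good (fun _ : Fin 1 => D) j (fun _ => 1)) X : ℝ) /
        (countQuad (fun D => D < 0 ∧ ∀ i, Allowed (j i) D) X : ℝ)) atTop
      (nhds (∏' i : ℕ, (1 - (1 / 2 : ℝ) ^ (i + 1))))) ∧
    0.1443 < delta 0 ∧ delta 0 < 0.1445 ∧ 0.2096 < delta 1 ∧ delta 1 < 0.2098 ∧
      0.1544 < delta 2 ∧ delta 2 < 0.1547 :=
  Pool.Agent.N970.AVP.mainA2

end Pool.Agent.Results.MP_ac3185_nt.ProductsThreeCurves
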