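import Pool.Agent.N874.TQ.Cnt
import Pool.Agent.N874.QM.Gnu
import Pool.Agent.N874.Jac.Def

/-!
# A positive proportion of all odd hyperelliptic Jacobians over `ℚ`, over infinitely many number fields at once

Let `g ≥ 1`. We consider ALL polynomials `f = x ^ (2 g + 1) + a_(2 g - 1) x ^ (2 g - 1) + ... + a_0` with
integral coefficients, ordered by the height: `|a_i| ≤ B ^ (2 g + 1 - i)`. (Every hyperelliptic curve of
genus `g` over `ℚ` with a rational Weierstrass point, and for `g = 1` every elliptic curve over `ℚ`, has an
equation `y ^ 2 = f(x)` with such an `f`.)

For `f` and a finite set `S` of primes let `E(f, S)` be the class of all the number fields `M` which are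
Galois over `ℚ` of 2-power degree, have an embedding in `ℝ` (so `M` is totally real) and an embedding in
`ℚ_2` (so `2` splits completely), in which all `q ∈ S` split completely and in which only primes are
ramified modulo which `f` is irreducible.

Theorem. For every finite set `T` of primes there are a finite set `S` of primes, disjoint from `T`, and a
constant `c > 0` such that for all large `B` at least `c` times the number of all `f` of height at most `B`
are irreducible over `ℚ`, modulo `2` and modulo all `p ∈ T`, are obtained from a polynomial `f₀` with
squarefree discriminant `Δ` by a twist with a product of primes in `S`, and the Jacobian `J` of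
`y ^ 2 = f(x)` has the following properties over ALL the number fields `M ∈ E(f, S)`: multiplication by two is bijective on `J(M)`, and all
classes of 2-power order in the Tate-Shafarevich group of `J` over `M` are zero.

Here `J(L)` is the Picard group of the affine coordinate ring `L[x, y] / (y ^ 2 - f)` (the curve has one
point at infinity, which is rational), and the Tate-Shafarevich group is defined by continuous cocycles on
the absolute Galois group of `M` with values in `J` of the separable closure which are trivial over the
completions at all finite places and over `ℝ` for all real embeddings.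

By the theorem of Mordell and Weil `J(M)` is finite: the abelian variety `J` of dimension `g` has rank `0`
over all `M ∈ E(f, S)`. The class `E(f, S)` is closed under composita, and it is infinite: `f` is
irreducible modulo `2`, so that the Frobenius automorphism at `2` permutes the
zeros of `f` in one cycle, and by the theorem of Chebotarev `f` is irreducible modulo `p` for a set of
primes `p` of positive density; `ℚ(√d)` is in `E(f, S)` for all positive products `d` of such primes which
are 1 modulo 8 and squares modulo all `q ∈ S`, and similarly there are many non-abelian fields in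
`E(f, S)`.

The parity conjecture holds for `J` over all `M ∈ E(f, S)`, `M ≠ ℚ`. As the rank is `0`, it says that the
product of the local root numbers `w(J / M_v)` is 1. (`Δ` is odd, as `f₀` is irreducible modulo `2`.) Over
the real place, over `2` and over the primes in `S` there are `2 ^ n` places with equal root numbers. At the primes which are ramified in `M` the reduction is good. At the other primes `p ∣ Δ` the
reduction is semistable of toric rank one, so that `w(J / M_v) = -1` if the torus splits, which it does over
an unramified extension of even degree; so only those `p` contribute for which there is an odd number of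
places over `p`, that is one, and this happens only if `M` is cyclic over `ℚ` and `p` is inert in the
quadratic field `ℚ(√d) ⊆ M`. The number of these `p ∣ Δ` is even, because `(d / |Δ|) = (Δ / d)`,
`d ≡ 1 mod 8`, and `Δ` is a square modulo the primes `P ∣ d`, modulo which `f` is irreducible of odd degree.

The difference to `MP_009fd8_ag.JacobiansOverTwoExtensions` (project QM), where `M` is given first and the
set of the `f` depends on `M`, is the order of the quantifiers: here one set of curves of positive density
works for all these number fields. Neither theorem contains the other.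

Proof. By a descent (project JB) it is enough that the 2-Selmer group in the explicit form of Cassels and
Schaefer is trivial over `M`. We consider the `f` which are irreducible modulo all small primes, and which
are `x h_q(x)`, `h_q` irreducible, modulo `q ∈ S`, `S` a large finite set of primes which are 1 modulo 8. As
in the case `M = ℚ` (project PQ of helper783, `MP_a43263_nt.AllOddHyperelliptic`) reduction theory of pairs
of integral symmetric matrices, a reciprocity law and linear algebra give a subset `I` of `S` for which a
relaxed Selmer group over `ℚ` of the twist by the product of the `q ∈ I` is zero. Now let `M ∈ E(f, S)` and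
let `θ` be a zero of `f`. The local conditions over `M` define a group of elements of `M(θ)` modulo squares
which is stable under `Gal(M / ℚ)`; it is zero because its invariant part comes from the Selmer group over
`ℚ`. For this one has to know that the primes of `ℚ(θ)` at which `f'(θ)` is a unit are unramified in
`M(θ)`, unless they divide a prime which is ramified in `M`; but modulo such a prime `f` is irreducible, and
the parity at the only prime over it follows from the norm.

Project TQ: helper874, based on project QM (helper874, helper783), project PQ (helper783), project TW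
(helper874) and project JB (helper352), with parts by helpers 42, 160, 222, 394, 438, 459, 521, 530, 711,
713, 756, 835, 849, 891, 999; parts of PQ by helpers 2, 7, 27, 73, 134, 216, 262, 271, 316, 322, 340, 346,
348, 383, 400, 456, 457, 488, 490, 498, 507, 595, 644, 691, 747, 755, 776, 833, 850, 855, 878, 896, 951; of
JB by helpers 106, 232, 424, 615, 655; of JM by helpers 123, 301, 738, 814.
-/

set_option autoImplicit false
set_option linter.all false

namespace Pool.Agent.Results.MP_ac3185_nt.RankZeroUniformly

open Polynomial Filter IsDedekindDomain NumberField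
open Pool.Agent.N874.Jac (UniquelyTwoDivisible ShaTwoTrivialReal)
open scoped Classical

/-- `f` is a monic integral polynomial of degree `2 g + 1` without term of degree `2 g` and of height at
most `B`. -/
structure IsPoly (g B : ℕ) (f : ℤ[X]) : Prop where
  monic : f.Monic
  degree : f.natDegree = 2 * g + 1
  trace : f.coeff (2 * g) = 0
  height : ∀ j ≤ 2 * g, |f.coeff j| ≤ (B : ℤ) ^ (2 * g + 1 - j)

/-- The polynomials `f` of height at most `B`. -/
def Polys (g B : ℕ) : Set ℤ[X] := {f | IsPoly g B f}

/-- Multiplication by two is bijective on `J(M)`, `J` the Jacobian of `y ^ 2 = F(x)`, and the 2-primary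
part of the Tate-Shafarevich group of `J` over `M` is zero. -/
def NoTwoPart {M : Type} [Field M] [NumberField M] (F : M[X]) : Prop :=
  UniquelyTwoDivisible F ∧ ShaTwoTrivialReal F (𝓞 M)

/-- `f` is irreducible modulo `p`. -/
def IrreducibleMod (f : ℤ[X]) (p : ℕ) : Prop := Irreducible (f.map (Int.castRingHom (ZMod p)))

/-- `f` is obtained from a polynomial with squarefree discriminant by a twist with a product of primes in
`S`: `f(x) = D ^ (2 g + 1) f₀(x / D)`. -/
def AlmostSquarefree (S : Finset ℕ) (g : ℕ) (f : ℤ[X]) : Prop :=
  ∃ I ⊆ S, ∃ f₀ : ℤ[X], Squarefree (f₀.resultant (derivative f₀) (2 * g + 1) (2 * g)) ∧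
    f = f₀.scaleRoots ((∏ q ∈ I, q : ℕ) : ℤ)

/-- `p` is unramified in the number field `M`. -/
def Unramified (M : Type) [Field M] [NumberField M] (p : ℕ) : Prop :=
  ∀ w : HeightOneSpectrum (𝓞 M), (p : 𝓞 M) ∈ w.asIdeal → (p : 𝓞 M) ∉ w.asIdeal ^ 2

/-- `q` splits completely in the number field `M`: it is unramified, and all algebraic integers in `M`
are congruent to integers modulo every prime over `q`. -/
def SplitsCompletely (M : Type) [Field M] [NumberField M] (q : ℕ) : Prop :=
  Unramified M q ∧ ∀ w : HeightOneSpectrum (𝓞 M), (q : 𝓞 M) ∈ w.asIdeal →
    ∀ y : 𝓞 M, ∃ c : ℤ, y - (c : 𝓞 M) ∈ w.asIdeal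

/-- The Jacobian of `y ^ 2 = f(x)` has no 2-part over all the number fields `M`, Galois over `ℚ` of
2-power degree, which can be embedded in `ℝ` and in `ℚ_2`, in which the primes `q ∈ S` split completely
and in which only primes are ramified modulo which `f` is irreducible. -/
def NoTwoPartUniformly (S : Finset ℕ) (f : ℤ[X]) : Prop :=
  ∀ (M : Type) [Field M] [NumberField M] [IsGalois ℚ M] (n : ℕ), Module.finrank ℚ M = 2 ^ n →
    Nonempty (M →+* ℝ) → Nonempty (M →+* ℚ_[2]) → (∀ q ∈ S, SplitsCompletely M q) →
    (∀ p : ℕ, p.Prime → Unramified M p ∨ IrreducibleMod f p) →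
    NoTwoPart (f.map (Int.castRingHom M))

/-- The polynomials `f` of height at most `B` which are irreducible over `ℚ`, modulo `2` and modulo all
`p ∈ T`, which have a squarefree discriminant up to a twist and for which the Jacobian of `y ^ 2 = f(x)` has
no 2-part over all the number fields `M` which belong to `S` and `f`. -/
def UniformlyTrivial (S T : Finset ℕ) (g B : ℕ) : Set ℤ[X] :=
  {f ∈ Polys g B | Irreducible (f.map (Int.castRingHom ℚ)) ∧ IrreducibleMod f 2 ∧
    (∀ p ∈ T, IrreducibleMod f p) ∧ AlmostSquarefree S g f ∧ NoTwoPartUniformly S f}

/-- For every `g ≥ 1` and every finite set `T` of primes there are a finite set `S` of primes, disjoint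
from `T`, and a positive constant `c` such that for all large `B` at least `c` times the number of all the
`f` of height at most `B` are irreducible over `ℚ`, modulo `2` and modulo all `p ∈ T`, have a squarefree
discriminant up to a twist with a product of primes in `S`, and the Jacobian `J` of
`y ^ 2 = f(x)` is such that for ALL the number fields `M`, Galois over `ℚ` of 2-power degree, which can be
embedded in `ℝ` and in `ℚ_2`, in which all `q ∈ S` split completely and in which only primes are ramified
modulo which `f` is irreducible, multiplication by two is bijective on `J(M)` and the 2-primary part of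
the Tate-Shafarevich group of `J` over `M` is zero. -/
theorem result (g : ℕ) (hg : 1 ≤ g) (T : Finset ℕ) (hT : ∀ p ∈ T, p.Prime) :
    (∀ B : ℕ, 1 ≤ B → (Polys g B).Finite) ∧
    ∃ S : Finset ℕ, (∀ q ∈ S, q.Prime) ∧ Disjoint S T ∧
      ∃ c : ℝ, 0 < c ∧ ∀ᶠ B : ℕ in atTop, 0 < (Polys g B).ncard ∧
        c * ((Polys g B).ncard : ℝ) ≤ ((UniformlyTrivial S T g B).ncard : ℝ) := by
  have heq : ∀ B, Polys g B = {f : ℤ[X] | Pool.Agent.N783.PQ.Ht g B f} := by
    intro B
    ext f
    exact ⟨fun h => ⟨h.monic, h.degree, h.trace, h.height⟩, fun h => ⟨h.mon, h.deg, h.tr, h.ht⟩⟩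
  have hfin : ∀ B : ℕ, 1 ≤ B → (Polys g B).Finite := by
    intro B hB
    rw [heq]
    exact (Pool.Agent.N400.PQ.ht_card g B hB).1
  refine ⟨hfin, ?_⟩
  obtain ⟨S, hS, hdis, c, hc, B₀, hB₀⟩ := Pool.Agent.N874.TQ.final hg (insert 2 T) (by
    intro p hp
    rcases Finset.mem_insert.1 hp with rfl | hp
    · exact Nat.prime_two
    · exact hT p hp)
  refine ⟨S, hS, Finset.disjoint_of_subset_right (Finset.subset_insert 2 T) hdis, c, hc, ?_⟩
  filter_upwards [eventually_ge_atTop B₀, eventually_ge_atTop 1] with B hB hB1
  obtain ⟨hHt, hle⟩ := hB₀ B hB
  have hsub : {f : ℤ[X] | Pool.Agent.N783.PQ.Ht g B f ∧ Irreducible (Pool.Agent.N783.PQ.ov ℚ f) ∧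
      (∀ p ∈ insert 2 T, Irreducible (Pool.Agent.N783.PQ.rd p f)) ∧
      Pool.Agent.N874.TQ.Tws g S f ∧ Pool.Agent.N874.TQ.Uni S f f} ⊆
      UniformlyTrivial S T g B := by
    rintro f ⟨h1, h3, hTi, htw, h4⟩
    refine ⟨⟨h1.mon, h1.deg, h1.tr, h1.ht⟩, h3, hTi 2 (Finset.mem_insert_self 2 T),
      fun p hp => hTi p (Finset.mem_insert_of_mem hp), htw, ?_⟩
    rintro M _ _ _ n hn ⟨ρ⟩ ⟨τ⟩ hQ hP
    have hsel : Pool.Agent.N874.QM.SelM M (f.map (algebraMap ℤ M)) := by
      refine h4 M τ ρ n hn (fun q hq w hw => ⟨?_, fun y => ?_⟩) fun p hp hram => ?_
      · exact (Pool.Agent.N874.TQ.val_iff q w hw).2 ((hQ q hq).1 w hw)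
      · obtain ⟨y, rfl⟩ := Ideal.Quotient.mk_surjective y
        obtain ⟨b, hb⟩ := (hQ q hq).2 w hw y
        exact ⟨b, (Ideal.Quotient.eq.2 hb).symm⟩
      · rcases hP p hp with h | h
        · obtain ⟨w, hw, hne⟩ := hram
          exact absurd ((Pool.Agent.N874.TQ.val_iff p w hw).2 (h w hw)) hne
        · exact h
    have h5 := Pool.Agent.N874.QM.genuine M hn h1.mon
      (by rw [h1.deg]; exact odd_two_mul_add_one g) h3 hsel
    have e : f.map (Int.castRingHom M) = f.map (algebraMap ℤ M) := by
      congr 1
    rw [e]
    exact h5
  have hfin2 : (UniformlyTrivial S T g B).Finite := (hfin B hB1).subset fun f hf => hf.1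
  have h1 := Set.ncard_le_ncard hsub hfin2
  rw [heq]
  refine ⟨?_, hle.trans (by exact_mod_cast h1)⟩
  rw [Set.ncard_pos hHt]
  refine ⟨X ^ (2 * g + 1), monic_X_pow _, natDegree_X_pow _, ?_, fun j hj => ?_⟩
  · rw [coeff_X_pow, if_neg (by omega)]
  · rw [coeff_X_pow, if_neg (by omega), abs_zero]
    positivity

end Pool.Agent.Results.MP_ac3185_nt.RankZeroUniformly
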