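import Pool.Agent.N19.BR.AV

/-!
# The parity conjecture for semistable abelian varieties over number fields: a product formula over fields
with `2`-hyperelementary Galois action and large odd local degrees

`K` is a number field, `L` a finite Galois extension of `K` and `S` a finite set of primes of `K`.

The proof.  There is a relation `∑ e_j [F_j] = m [K]` between the permutation characters of finite
extensions `F_j` of `K` with the properties below, with an odd integer `m` (`Pool.Agent.N19.BR`: Brauer
induction with denominators prime to `2`, refined by the relations for the splitting fields of the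
polynomials `(X^ℓ - a) h`, `ℓ` odd, `a` a uniformizer at the primes in `S` and `h` of degree `ℓ` and
irreducible modulo these primes).  For every representation `W` of the absolute Galois group (for example
`W = A(K̄) ⊗ ℚ`, with the fixed spaces `A(F) ⊗ ℚ`) it gives `∑ e_j dim W^{G_{F_j}} = m dim W^{G_K}`, and it
gives the same relation for the numbers of archimedean places and, ramified primes included, for the sums of
any function of the residue degree over the primes above a prime `v` of `K`; for a semistable abelian variety
the rank of the split torus at a prime is such a function.  The terms with even `e_j` do not contribute to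
the parity.

The definitions are in `Pool.Agent.N19.BR.AVDefs`, `PDefs`, `BBDefs` and `Defs`.
-/

set_option autoImplicit false

namespace Pool.Agent.Results.MP_ac3185_nt.SemistableParityFormula

open NumberField IsDedekindDomain
open Pool.Agent.R433.MD (Ext)
open Pool.Agent.N19.BR.FDef (TwoClass)
open Pool.Agent.N19.BR.MDef (fixedBy)
open Pool.Agent.N19.BR.AVDef

/-- **Parity of ranks of semistable abelian varieties.**  Let `L/K` be a finite Galois extension of
number fields, `S` a finite set of primes of `K` and `n` an odd positive integer.  There are finitely many
number fields `F_j` between `K` and its algebraic closure such that the Galois groups of `L F_j / F_j` are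
`2`-hyperelementary and `n` divides the local degrees of all `F_j / K` at the primes above `S`, and a set
`J` of indices, such that for ALL local data `D` of semistable abelian varieties `A` over `K` and all
representations `W` of `G_K` over fields of characteristic zero with finite-dimensional fixed spaces
`W^{G_{F_j}}` (`A(F_j) ⊗ ℚ` if `W = A(K̄) ⊗ ℚ`)

`(-1)^{dim W^{G_K}} w(A / K) = ∏_{j ∈ J} (-1)^{dim W^{G_{F_j}}} w(A / F_j)`;

in particular, if the parity conjecture holds for `A` over the fields `F_j`, `j ∈ J`, then it holds for `A`
over `K`. -/
theorem result (K : Type) [Field K] [NumberField K] (L : Type) [Field L] [NumberField L]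
    [Algebra K L] [IsGalois K L] (S : Set (HeightOneSpectrum (𝓞 K))) (hS : S.Finite) (n : ℕ)
    (hn : Odd n) :
    ∃ (N : ℕ) (F : Fin N → IntermediateField K (AlgebraicClosure K)) (_ : ∀ j, NumberField (F j))
      (J : Finset (Fin N)), (∀ j, TwoClass L S n (⟨F j⟩ : Ext K)) ∧
      ∀ (D : SemistableData K) (k W : Type) [Field k] [CharZero k] [AddCommGroup W] [Module k W]
        (ρ : Representation k Gal(AlgebraicClosure K/K) W), ParityFormula D ρ F J ∧
          ((∀ j, FiniteDimensional k (fixedBy ρ (F j))) →
            (∀ j ∈ J, ParityOver D ρ (F j)) → Parity D ρ) := by
  classical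
  obtain ⟨N, Z, e, m, hm, hrel, hZ⟩ := Pool.Agent.N19.BR.list_two K L hS hn
  refine ⟨N, fun j => Pool.Agent.N19.BR.img (Z j), fun j => Pool.Agent.N19.BR.img_nf (Z j),
    Finset.univ.filter fun i => Odd (e i), fun j => Pool.Agent.N19.BR.img_two (Z j) (hZ j),
    fun D k W _ _ _ _ ρ => ?_⟩
  have h := Pool.Agent.N19.BR.parity_av D ρ (fun j => Pool.Agent.N19.BR.img (Z j)) hm
    (Pool.Agent.N19.BR.isRel_img' hrel)
  have h' : ParityFormula D ρ (fun j => Pool.Agent.N19.BR.img (Z j))
      (Finset.univ.filter fun i => Odd (e i)) := by
    convert h
  exact ⟨h', fun h1 h2 => Pool.Agent.N19.BR.parity_av_of D ρ h' h1 h2⟩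

end Pool.Agent.Results.MP_ac3185_nt.SemistableParityFormula
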